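import Pool.Agent.N906.NT.Stm

/-!
# Project NT: the generating function over tuples, upper bound
-/

set_option autoImplicit false

namespace Pool.Agent.N539.NT

open Finset Filter Topology
open Pool.Agent.N906.NT

/-- the exponent vectors with a given support -/
theorem loc_S {n : ℕ} (S : Finset (Fin n)) (E : ℕ) (q z : ℝ) (hq0 : 0 < q)
    (hq1 : q < 1) (hz : z = q / (1 - q)) (X : Finset (Fin n → ℕ))
    (hX : ∀ e ∈ X, (∀ i, e i ≤ E) ∧ 2 ≤ ∑ i, e i ∧ (univ.filter fun i => e i ≠ 0) = S) :
    ∑ e ∈ X, q ^ (∑ i, e i - 1) ≤ (if S.card = 1 then z else z ^ S.card / q) := by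
  classical
  obtain ⟨a, ha⟩ : ∃ a : ℕ, a = if S.card = 1 then 2 else 1 := ⟨_, rfl⟩
  have hsub : X ⊆ Fintype.piFinset fun i => if i ∈ S then Ico a (E + 1) else {0} := by
    intro e he
    obtain ⟨h1, h2, h3⟩ := hX e he
    rw [Fintype.mem_piFinset]
    intro i
    by_cases hi : i ∈ S
    · rw [if_pos hi, mem_Ico]
      refine ⟨?_, Nat.lt_succ_of_le (h1 i)⟩
      have h4 : e i ≠ 0 := by
        rw [← h3] at hi
        exact (mem_filter.1 hi).2
      rw [ha]
      split_ifs with hc
      · obtain ⟨j, hj⟩ := card_eq_one.1 hc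
        have hij : i = j := by
          rw [hj] at hi
          exact mem_singleton.1 hi
        have h5 : ∑ l, e l = e i := by
          refine Fintype.sum_eq_single i fun l hl => ?_
          by_contra hcon
          have h6 : l ∈ S := by
            rw [← h3]
            exact mem_filter.2 ⟨mem_univ _, hcon⟩
          rw [hj, mem_singleton] at h6
          exact hl (h6.trans hij.symm)
        omega
      · omega
    · rw [if_neg hi, mem_singleton]
      by_contra hcon
      exact hi (by rw [← h3]; exact mem_filter.2 ⟨mem_univ _, hcon⟩)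
  obtain ⟨c, hc⟩ : ∃ c : ℝ, c = q ^ a / (1 - q) := ⟨_, rfl⟩
  have h1q : 0 < 1 - q := by linarith
  have hc0 : 0 ≤ c := by rw [hc]; positivity
  calc ∑ e ∈ X, q ^ (∑ i, e i - 1) = ∑ e ∈ X, (∏ i, q ^ e i) / q := by
        refine sum_congr rfl fun e he => ?_
        obtain ⟨h1, h2, h3⟩ := hX e he
        rw [prod_pow_eq_pow_sum, eq_div_iff hq0.ne', ← pow_succ]
        congr 1
        omega
    _ ≤ ∑ e ∈ Fintype.piFinset (fun i => if i ∈ S then Ico a (E + 1) else {0}),
          (∏ i, q ^ e i) / q :=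
        sum_le_sum_of_subset_of_nonneg hsub fun e _ _ => by positivity
    _ = (∏ i, ∑ j ∈ (if i ∈ S then Ico a (E + 1) else {0}), q ^ j) / q := by
        rw [← sum_div, prod_univ_sum]
    _ ≤ (∏ i, if i ∈ S then c else 1) / q := by
        refine div_le_div_of_nonneg_right (prod_le_prod (fun i _ => sum_nonneg fun j _ => by positivity)
          fun i _ => ?_) hq0.le
        split_ifs with hi
        · rw [hc]
          exact geom_sum_Ico_le_of_lt_one hq0.le hq1
        · simp
    _ = c ^ S.card / q := by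
        rw [prod_ite_mem, univ_inter, prod_const]
    _ = _ := by
        rw [hc, ha, hz]
        split_ifs with h1
        · rw [h1, pow_one]
          field_simp
        · rw [pow_one]

/-- the sum over all exponent vectors -/
theorem loc {n : ℕ} (Δ : Finset (Finset (Fin n))) (r t : ℕ) (hΔ : Cx Δ r t) (E : ℕ) (q z : ℝ)
    (hq0 : 0 < q) (hq1 : q < 1) (hz : z = q / (1 - q)) (X : Finset (Fin n → ℕ))
    (hX : ∀ e ∈ X, (∀ i, e i ≤ E) ∧ 2 ≤ ∑ i, e i ∧ (univ.filter fun i => e i ≠ 0) ∈ Δ) :
    ∑ e ∈ X, q ^ (∑ i, e i - 1) ≤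
      t * z ^ r + ((r : ℝ) - 1) * ((2 ^ (n + 1) : ℕ) : ℝ) * (z + z ^ (r - 1)) := by
  classical
  obtain ⟨hr, ht, h0, -, hcard, htc⟩ := hΔ
  have h1q : 0 < 1 - q := by linarith
  have hz0 : 0 < z := by rw [hz]; positivity
  have hzq : z / q = z + 1 := by
    rw [hz]
    field_simp
    ring
  have hrR : (0 : ℝ) ≤ (r : ℝ) - 1 := by
    have : (1 : ℝ) ≤ r := by exact_mod_cast hr
    linarith
  have hmap : ∀ e ∈ X, (univ.filter fun i => e i ≠ 0) ∈ Δ.erase ∅ := by
    intro e he
    obtain ⟨h1, h2, h3⟩ := hX e he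
    refine mem_erase.2 ⟨fun h4 => ?_, h3⟩
    have h5 : ∑ i, e i = 0 := by
      refine sum_eq_zero fun i _ => ?_
      by_contra hcon
      have : i ∈ (univ.filter fun i => e i ≠ 0) := mem_filter.2 ⟨mem_univ _, hcon⟩
      rw [h4] at this
      exact absurd this (notMem_empty _)
    omega
  have hpow : ∀ j, 1 ≤ j → j ≤ r - 1 → z ^ j ≤ z + z ^ (r - 1) := by
    intro j hj1 hj2
    rcases le_total z 1 with h1 | h1
    · have : z ^ j ≤ z ^ 1 := pow_le_pow_of_le_one hz0.le h1 hj1
      rw [pow_one] at this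
      have h2 : 0 ≤ z ^ (r - 1) := by positivity
      linarith
    · have := pow_le_pow_right₀ h1 hj2
      linarith
  have hS : ∀ S ∈ Δ.erase ∅, (if S.card = 1 then z else z ^ S.card / q) ≤
      (if S.card = r then z ^ r else 0) + ((r : ℝ) - 1) * (2 * (z + z ^ (r - 1))) := by
    intro S hS
    obtain ⟨hne, hSΔ⟩ := mem_erase.1 hS
    have hc1 : 1 ≤ S.card := card_pos.2 (nonempty_iff_ne_empty.2 hne)
    have hcr := hcard S hSΔ
    have hzz : 0 ≤ z + z ^ (r - 1) := by positivity
    rcases Nat.eq_or_lt_of_le hr with hr1 | hr1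
    · -- r = 1
      have : S.card = 1 := by omega
      rw [if_pos this, if_pos (by omega), ← hr1]
      simp
    · have h2r : (1 : ℝ) ≤ (r : ℝ) - 1 := by
        have : (2 : ℝ) ≤ r := by exact_mod_cast hr1
        linarith
      have hbig : 2 * (z + z ^ (r - 1)) ≤ ((r : ℝ) - 1) * (2 * (z + z ^ (r - 1))) := by
        nlinarith
      by_cases hs1 : S.card = 1
      · rw [if_pos hs1, if_neg (by omega)]
        have h2 : 0 ≤ z ^ (r - 1) := by positivity
        linarith
      · rw [if_neg hs1]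
        have hex : z ^ S.card / q = z ^ S.card + z ^ (S.card - 1) := by
          have h3 : z ^ S.card = z ^ (S.card - 1) * z := by
            rw [← pow_succ]
            congr 1
            omega
          rw [h3, mul_div_assoc, hzq]
          ring
        rw [hex]
        have h4 := hpow (S.card - 1) (by omega) (by omega)
        by_cases hsr : S.card = r
        · rw [if_pos hsr, hsr]
          rw [hsr] at h4
          linarith
        · rw [if_neg hsr]
          have h5 := hpow S.card hc1 (by omega)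
          linarith
  calc ∑ e ∈ X, q ^ (∑ i, e i - 1)
      = ∑ S ∈ Δ.erase ∅, ∑ e ∈ X with (univ.filter fun i => e i ≠ 0) = S, q ^ (∑ i, e i - 1) :=
        (sum_fiberwise_of_maps_to hmap _).symm
    _ ≤ ∑ S ∈ Δ.erase ∅, ((if S.card = r then z ^ r else 0) +
          ((r : ℝ) - 1) * (2 * (z + z ^ (r - 1)))) := by
        refine sum_le_sum fun S hSm => le_trans (loc_S S E q z hq0 hq1 hz _ fun e he => ?_) (hS S hSm)
        obtain ⟨he1, he2⟩ := mem_filter.1 he
        obtain ⟨h1, h2, h3⟩ := hX e he1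
        exact ⟨h1, h2, he2⟩
    _ ≤ ∑ S ∈ Δ, (if S.card = r then z ^ r else 0) +
          ∑ S ∈ (univ : Finset (Finset (Fin n))), ((r : ℝ) - 1) * (2 * (z + z ^ (r - 1))) := by
        rw [sum_add_distrib]
        refine add_le_add (sum_le_sum_of_subset_of_nonneg (erase_subset _ _) fun S _ _ => ?_)
          (sum_le_sum_of_subset_of_nonneg (subset_univ _) fun S _ _ => by positivity)
        split_ifs
        · positivity
        · exact le_rfl
    _ = _ := by
        rw [← sum_filter, sum_const, htc, sum_const, card_univ, Fintype.card_finset, Fintype.card_fin,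
          nsmul_eq_mul, nsmul_eq_mul]
        push_cast
        ring

/-- GUPN -/
theorem gupn (h : S_EUPN) : S_GUPN := by
  classical
  intro n Δ r t μ θ ε hΔ hμ hθ0 hθ1 hε
  obtain ⟨u₀, hu0, hu1, H⟩ := h r t (2 ^ (n + 1)) μ θ ε hΔ.1 hΔ.2.1 hμ hθ0 hθ1 hε
  refine ⟨u₀, hu0, hu1, fun u hu huu F hF => ?_⟩
  obtain ⟨P, hP⟩ : ∃ P : Finset ℕ, P = F.biUnion fun D => (pr D).primeFactors := ⟨_, rfl⟩
  have hPp : ∀ p ∈ P, p.Prime := by
    intro p hp
    rw [hP, mem_biUnion] at hp
    obtain ⟨D, -, hD⟩ := hp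
    exact Nat.prime_of_mem_primeFactors hD
  obtain ⟨E, hE⟩ : ∃ E : ℕ, ∀ D ∈ F, ∀ i, D i ≤ E :=
    ⟨F.sup fun D => univ.sup fun i => D i, fun D hD i =>
      (le_sup (f := fun i => D i) (mem_univ i)).trans (le_sup (f := fun D => univ.sup fun i => D i) hD)⟩
  obtain ⟨X, hX⟩ : ∃ X : Finset (Fin n → ℕ), X = (Fintype.piFinset fun _ => range (E + 1)).filter
    fun e => 2 ≤ ∑ i, e i ∧ (univ.filter fun i => e i ≠ 0) ∈ Δ := ⟨_, rfl⟩
  have hXm : ∀ e, e ∈ X ↔ (∀ i, e i ≤ E) ∧ 2 ≤ ∑ i, e i ∧ (univ.filter fun i => e i ≠ 0) ∈ Δ := by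
    intro e
    rw [hX, mem_filter, Fintype.mem_piFinset]
    simp only [mem_range, Nat.lt_succ_iff]
  have h0X : (0 : Fin n → ℕ) ∉ X := by
    intro h0
    have := ((hXm 0).1 h0).2.1
    simp at this
  obtain ⟨f, hf⟩ : ∃ f : ℕ → (Fin n → ℕ) → ℝ, f = fun (p : ℕ) (e : Fin n → ℕ) => if e = 0 then 1 else
    μ * ((p : ℝ) ^ (∑ i, e i - 1)) ^ (-u) * (p : ℝ) ^ (-(1 - θ * u)) := ⟨_, rfl⟩
  have hf0 : ∀ p e, 0 ≤ f p e := by
    intro p e
    rw [hf]
    simp only
    split_ifs
    · exact zero_le_one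
    · positivity
  obtain ⟨B, hB⟩ : ∃ B : ℕ → ℝ, B = fun (p : ℕ) => 1 + μ * (p : ℝ) ^ (θ * u - 1) *
    (t / ((p : ℝ) ^ u - 1) ^ r + ((r : ℝ) - 1) * ((2 ^ (n + 1) : ℕ) : ℝ) *
      (1 / ((p : ℝ) ^ u - 1) + 1 / ((p : ℝ) ^ u - 1) ^ (r - 1))) := ⟨_, rfl⟩
  have hloc : ∀ p ∈ P, ∑ e ∈ insert 0 X, f p e ≤ B p := by
    intro p hp
    have hp' := hPp p hp
    have hp1 : (1 : ℝ) < p := by exact_mod_cast hp'.one_lt
    have hp0 : (0 : ℝ) < p := by linarith
    have hy : 1 < (p : ℝ) ^ u := Real.one_lt_rpow hp1 hu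
    obtain ⟨q, hq⟩ : ∃ q : ℝ, q = (p : ℝ) ^ (-u) := ⟨_, rfl⟩
    have hq0 : 0 < q := by rw [hq]; positivity
    have hqy : q * (p : ℝ) ^ u = 1 := by
      rw [hq, ← Real.rpow_add hp0, neg_add_cancel, Real.rpow_zero]
    have hq1 : q < 1 := by
      by_contra hcon
      rw [not_lt] at hcon
      nlinarith
    have hz : 1 / ((p : ℝ) ^ u - 1) = q / (1 - q) := by
      have h1 : (p : ℝ) ^ u - 1 ≠ 0 := by linarith
      have h2 : 1 - q ≠ 0 := by linarith
      rw [div_eq_div_iff h1 h2]
      linarith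
    have h1 := loc Δ r t hΔ E q _ hq0 hq1 hz X fun e he => (hXm e).1 he
    rw [sum_insert h0X]
    have h2 : f p 0 = 1 := by
      rw [hf]
      simp
    have h3 : ∑ e ∈ X, f p e = μ * (p : ℝ) ^ (θ * u - 1) * ∑ e ∈ X, q ^ (∑ i, e i - 1) := by
      rw [mul_sum]
      refine sum_congr rfl fun e he => ?_
      have h4 : e ≠ 0 := fun h5 => h0X (h5 ▸ he)
      rw [hf]
      simp only [if_neg h4]
      have h5 : -(1 - θ * u) = θ * u - 1 := by ring
      have h6 : ((p : ℝ) ^ (∑ i, e i - 1)) ^ (-u) = q ^ (∑ i, e i - 1) := by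
        rw [hq, ← Real.rpow_natCast, ← Real.rpow_mul hp0.le, mul_comm, Real.rpow_mul hp0.le,
          Real.rpow_natCast]
      rw [h5, h6]
      ring
    rw [h2, h3, hB]
    simp only
    have h4 : 0 ≤ μ * (p : ℝ) ^ (θ * u - 1) := by positivity
    have h5 := mul_le_mul_of_nonneg_left h1 h4
    have h6 : t * (1 / ((p : ℝ) ^ u - 1)) ^ r = t / ((p : ℝ) ^ u - 1) ^ r := by
      rw [one_div, inv_pow, div_eq_mul_inv]
    have h7 : (1 / ((p : ℝ) ^ u - 1)) ^ (r - 1) = 1 / ((p : ℝ) ^ u - 1) ^ (r - 1) := by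
      rw [one_div, inv_pow, one_div]
    rw [h6, h7] at h5
    linarith
  obtain ⟨Φ, hΦ⟩ : ∃ Φ : (Fin n → ℕ) → (P → (Fin n → ℕ)),
    Φ = fun D p i => (D i).factorization p := ⟨_, rfl⟩
  have hne : ∀ D ∈ F, ∀ i, D i ≠ 0 := fun D hD i => by
    have := (hF D hD).1.1 i
    omega
  have hpr : ∀ D ∈ F, pr D ≠ 0 := fun D hD => prod_ne_zero_iff.2 fun i _ => hne D hD i
  have hsum : ∀ D ∈ F, ∀ p : ℕ, ∑ i, (D i).factorization p = (pr D).factorization p := by
    intro D hD p
    unfold pr
    rw [Nat.factorization_prod fun i _ => hne D hD i, Finsupp.finsetSum_apply]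
  have hPF : ∀ D ∈ F, (pr D).primeFactors ⊆ P := by
    intro D hD
    rw [hP]
    exact subset_biUnion_of_mem (fun D => (pr D).primeFactors) hD
  have hinj : Set.InjOn Φ (F : Set (Fin n → ℕ)) := by
    intro D hD D' hD' hDD
    rw [mem_coe] at hD hD'
    funext i
    refine Nat.eq_of_factorization_eq (hne D hD i) (hne D' hD' i) fun p => ?_
    by_cases hp : p ∈ P
    · have h1 := congrFun (congrFun hDD ⟨p, hp⟩) i
      rw [hΦ] at h1
      exact h1
    · have h2 : ∀ D ∈ F, (D i).factorization p = 0 := by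
        intro D hD
        by_contra hcon
        apply hp
        apply hPF D hD
        have h3 : p ∈ (D i).primeFactors := by
          rw [← Nat.support_factorization]
          exact Finsupp.mem_support_iff.2 hcon
        exact Nat.mem_primeFactors.2 ⟨Nat.prime_of_mem_primeFactors h3,
          (Nat.dvd_of_mem_primeFactors h3).trans (dvd_prod_of_mem _ (mem_univ i)), hpr D hD⟩
      rw [h2 D hD, h2 D' hD']
  have hmem : ∀ D ∈ F, Φ D ∈ Fintype.piFinset fun _ : P => insert 0 X := by
    intro D hD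
    rw [Fintype.mem_piFinset]
    intro p
    rw [mem_insert]
    by_cases hp : (p : ℕ) ∣ pr D
    · right
      rw [hXm]
      have hpp := hPp p p.2
      refine ⟨fun i => ?_, ?_, ?_⟩
      · rw [hΦ]
        exact (Nat.factorization_lt _ (hne D hD i)).le.trans (hE D hD i)
      · have h1 : ∑ i, Φ D p i = (pr D).factorization p := by
          rw [hΦ]
          exact hsum D hD p
        rw [h1]
        exact (hpp.pow_dvd_iff_le_factorization (hpr D hD)).1 ((hF D hD).2 p hpp hp)
      · have h1 : (univ.filter fun i => Φ D p i ≠ 0) = univ.filter fun i => (p : ℕ) ∣ D i := by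
          refine filter_congr fun i _ => ?_
          rw [hΦ]
          simp only
          rw [Ne, Nat.factorization_eq_zero_iff]
          have := hne D hD i
          tauto
        rw [h1]
        exact (hF D hD).1.2 p hpp
    · left
      funext i
      rw [hΦ]
      simp only [Pi.zero_apply]
      exact Nat.factorization_eq_zero_of_not_dvd fun h1 => hp (h1.trans (dvd_prod_of_mem _ (mem_univ i)))
  have hw : ∀ D ∈ F, μ ^ (pr D).primeFactors.card * gn D ^ (-u) * (rr D : ℝ) ^ (-(1 - θ * u)) =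
      ∏ p : P, f p (Φ D p) := by
    intro D hD
    have h1 : ∏ p : P, f p (Φ D p) = ∏ p ∈ P, f p (fun i => (D i).factorization p) := by
      rw [hΦ]
      exact prod_coe_sort P fun p => f p fun i => (D i).factorization p
    have h2 : ∏ p ∈ P, f p (fun i => (D i).factorization p) =
        ∏ p ∈ (pr D).primeFactors, f p (fun i => (D i).factorization p) := by
      refine (prod_subset (hPF D hD) fun p hp hp' => ?_).symm
      have h3 : (fun i => (D i).factorization p) = 0 := by
        funext i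
        by_contra hcon
        apply hp'
        have h3 : p ∈ (D i).primeFactors := by
          rw [← Nat.support_factorization]
          exact Finsupp.mem_support_iff.2 hcon
        exact Nat.mem_primeFactors.2 ⟨Nat.prime_of_mem_primeFactors h3,
          (Nat.dvd_of_mem_primeFactors h3).trans (dvd_prod_of_mem _ (mem_univ i)), hpr D hD⟩
      rw [h3, hf]
      simp
    rw [h1, h2]
    have h3 : ∀ p ∈ (pr D).primeFactors, f p (fun i => (D i).factorization p) =
        μ * ((p : ℝ) ^ ((pr D).factorization p - 1)) ^ (-u) * (p : ℝ) ^ (-(1 - θ * u)) := by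
      intro p hp
      have h4 : (fun i => (D i).factorization p) ≠ 0 := by
        intro h5
        have h6 := hsum D hD p
        have h7 : (pr D).factorization p ≠ 0 := by
          rw [← Nat.support_factorization] at hp
          exact Finsupp.mem_support_iff.1 hp
        apply h7
        rw [← h6]
        exact sum_eq_zero fun i _ => congrFun h5 i
      rw [hf]
      simp only [if_neg h4, hsum D hD p]
    rw [prod_congr rfl h3, prod_mul_distrib, prod_mul_distrib, prod_const,
      Real.finsetProd_rpow _ _ (fun p _ => by positivity),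
      Real.finsetProd_rpow _ _ (fun p _ => by positivity)]
    have h4 : ∏ p ∈ (pr D).primeFactors, (p : ℝ) ^ ((pr D).factorization p - 1) = gn D := by
      unfold gn rr
      have h5 : (pr D : ℝ) = ∏ p ∈ (pr D).primeFactors, (p : ℝ) ^ ((pr D).factorization p) := by
        conv_lhs => rw [← Nat.prod_factorization_pow_eq_self (hpr D hD)]
        rw [Finsupp.prod, Nat.support_factorization]
        push_cast
        rfl
      rw [h5]
      push_cast
      rw [← prod_div_distrib]
      refine prod_congr rfl fun p hp => ?_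
      have h6 : (p : ℝ) ≠ 0 := by
        exact_mod_cast (Nat.prime_of_mem_primeFactors hp).ne_zero
      have h7 : (pr D).factorization p ≠ 0 := by
        rw [← Nat.support_factorization] at hp
        exact Finsupp.mem_support_iff.1 hp
      rw [eq_div_iff h6, ← pow_succ]
      congr 1
      omega
    have h5 : ((rr D : ℕ) : ℝ) = ∏ p ∈ (pr D).primeFactors, (p : ℝ) := by
      unfold rr
      push_cast
      rfl
    rw [h4, h5]
  have hB1 : ∀ p ∈ P, 1 ≤ B p := by
    intro p hp
    refine le_trans ?_ (hloc p hp)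
    rw [sum_insert h0X]
    have h2 : f p 0 = 1 := by
      rw [hf]
      simp
    rw [h2]
    have := sum_nonneg fun e (_ : e ∈ X) => hf0 p e
    linarith
  calc ∑ D ∈ F, μ ^ (pr D).primeFactors.card * gn D ^ (-u) * (rr D : ℝ) ^ (-(1 - θ * u))
      = ∑ D ∈ F, ∏ p : P, f p (Φ D p) := sum_congr rfl hw
    _ = ∑ x ∈ F.image Φ, ∏ p : P, f p (x p) :=
        (sum_image (f := fun x : P → (Fin n → ℕ) => ∏ p : P, f p (x p)) hinj).symm
    _ ≤ ∑ x ∈ Fintype.piFinset (fun _ : P => insert 0 X), ∏ p : P, f p (x p) :=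
        sum_le_sum_of_subset_of_nonneg (image_subset_iff.2 hmem) fun x _ _ =>
          prod_nonneg fun p _ => hf0 _ _
    _ = ∏ p : P, ∑ e ∈ insert 0 X, f p e := (prod_univ_sum _ _).symm
    _ ≤ ∏ p : P, B p := prod_le_prod (fun p _ => sum_nonneg fun e _ => hf0 _ _)
        fun p _ => hloc p p.2
    _ = ∏ p ∈ P, B p := prod_coe_sort P B
    _ = Real.exp (∑ p ∈ P, Real.log (B p)) := by
        rw [Real.exp_sum]
        refine prod_congr rfl fun p hp => (Real.exp_log ?_).symm
        have := hB1 p hp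
        linarith
    _ ≤ _ := by
        refine Real.exp_le_exp.2 ?_
        rw [hB]
        exact H u hu huu P hPp

end Pool.Agent.N539.NT
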